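import Pool.Agent.H44.SB4

open MeasureTheory Pool.Agent.H44.SB

namespace Pool.Agent.Results.MP_c59c01_pr.Q1False

theorem result : ∃ μ : Measure ℕ, ∃ _ : IsProbabilityMeasure μ, μ {0} = 0 ∧
    ∫⁻ x, ENNReal.ofReal (Real.log x) ∂μ = ⊤ ∧
    ∃ p : unitInterval, 0 < p ∧ p < pc ∧ ∀ q : unitInterval, q < 1 →
      ∀ᵐ Λ ∂(Measure.infinitePi fun _ : ℤ => μ), theta (region Λ) p q = 0 := by
  refine ⟨mu0, inferInstance, mu0_zero, mu0_log, ⟨1 / 64, by norm_num, by norm_num⟩, ?_, ?_,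
    fun q hq => main (by norm_num) hq⟩
  · show (0 : ℝ) < 1 / 64
    norm_num
  · refine lt_of_lt_of_le ?_ (pc_ge (p := ⟨1 / 32, by norm_num, by norm_num⟩) le_rfl)
    show (1 / 64 : ℝ) < 1 / 32
    norm_num

end Pool.Agent.Results.MP_c59c01_pr.Q1False
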